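import Mathlib

set_option autoImplicit false

namespace Pool.Agent.H3.GSp

open Matrix

variable {F : Type} [Field F] {m : ℕ}

abbrev MM (F : Type) (m : ℕ) := Matrix (Fin m ⊕ Fin m) (Fin m ⊕ Fin m) F

def GS (g : MM F m) : Prop := ∃ c : F, c ≠ 0 ∧ Matrix.transpose g * Matrix.J (Fin m) F * g = c • Matrix.J (Fin m) F

def GSc (c : F) (g : MM F m) : Prop := c ≠ 0 ∧ Matrix.transpose g * Matrix.J (Fin m) F * g = c • Matrix.J (Fin m) F

lemma GSc.mul {c d : F} {g h : MM F m} (hg : GSc c g) (hh : GSc d h) : GSc (c * d) (g * h) := by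
  refine ⟨mul_ne_zero hg.1 hh.1, ?_⟩
  rw [transpose_mul]
  calc hᵀ * gᵀ * J (Fin m) F * (g * h) = hᵀ * (gᵀ * J (Fin m) F * g) * h := by simp only [Matrix.mul_assoc]
    _ = _ := by rw [hg.2, Matrix.mul_smul, Matrix.smul_mul, hh.2, smul_smul]

lemma GSc.gs {c : F} {g : MM F m} (hg : GSc c g) : GS g := ⟨c, hg⟩

/-- block equations -/
lemma GSc_blocks {c : F} {A B C D : Matrix (Fin m) (Fin m) F} : 
    GSc c (fromBlocks A B C D) ↔ c ≠ 0 ∧ Cᵀ * A = Aᵀ * C ∧ Aᵀ * D - Cᵀ * B = c • 1 ∧ Dᵀ * B = Bᵀ * D ∧ Dᵀ * A - Bᵀ * C = c • 1 := by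
  unfold GSc
  rw [fromBlocks_transpose, J, fromBlocks_multiply, fromBlocks_multiply, fromBlocks_smul, fromBlocks_inj]
  simp only [Matrix.mul_zero, Matrix.mul_one, zero_add, Matrix.mul_neg, add_zero, Matrix.neg_mul, smul_zero, smul_neg]
  constructor
  · rintro ⟨h0, h1, h2, h3, h4⟩
    refine ⟨h0, ?_, ?_, ?_, ?_⟩
    · exact (add_neg_eq_zero.1 h1)
    · rw [← neg_inj, ← h2]; abel
    · exact (add_neg_eq_zero.1 h4)
    · rw [← h3]; abel
  · rintro ⟨h0, h1, h2, h3, h4⟩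
    refine ⟨h0, ?_, ?_, ?_, ?_⟩
    · exact (add_neg_eq_zero.2 h1)
    · rw [← h2]; abel
    · rw [← h4]; abel
    · exact (add_neg_eq_zero.2 h3)

def nU (X : Matrix (Fin m) (Fin m) F) : MM F m := fromBlocks 1 X 0 1
def nL (X : Matrix (Fin m) (Fin m) F) : MM F m := fromBlocks 1 0 X 1
def tt (a : F) : MM F m := fromBlocks 1 0 0 (a • 1)
noncomputable def mA (A : Matrix (Fin m) (Fin m) F) : MM F m := fromBlocks A 0 0 (A⁻¹)ᵀ

lemma nU_gs {X : Matrix (Fin m) (Fin m) F} (hX : Xᵀ = X) : GSc 1 (nU X) := by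
  rw [nU, GSc_blocks]; simp [hX]

lemma nL_gs {X : Matrix (Fin m) (Fin m) F} (hX : Xᵀ = X) : GSc 1 (nL X) := by
  rw [nL, GSc_blocks]; simp [hX]

lemma tt_gs {a : F} (ha : a ≠ 0) : GSc a (tt (m := m) a) := by
  rw [tt, GSc_blocks]; simp [ha]

lemma mA_gs {A : Matrix (Fin m) (Fin m) F} (hA : A.det ≠ 0) : GSc 1 (mA A) := by
  have hu : IsUnit A.det := isUnit_iff_ne_zero.2 hA
  rw [mA, GSc_blocks]
  refine ⟨one_ne_zero, by simp, ?_, by simp, ?_⟩
  · simp [← transpose_mul, nonsing_inv_mul A hu]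
  · simp [nonsing_inv_mul A hu]

lemma one_gs : GSc 1 (1 : MM F m) := ⟨one_ne_zero, by simp⟩

lemma mA_mul (A B : Matrix (Fin m) (Fin m) F) : mA (A * B) = mA A * mA B := by
  simp [mA, fromBlocks_multiply, Matrix.mul_inv_rev]

lemma weyl {S : Matrix (Fin m) (Fin m) F} (hS : S.det ≠ 0) : 
    nU S * nL (-S⁻¹) * nU S = fromBlocks 0 S (-S⁻¹) 0 := by
  have hu : IsUnit S.det := isUnit_iff_ne_zero.2 hS
  simp [nU, nL, fromBlocks_multiply, mul_nonsing_inv S hu, nonsing_inv_mul S hu]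

lemma weyl_mul {S R : Matrix (Fin m) (Fin m) F} (hS : S.det ≠ 0) (hR : R.det ≠ 0) 
    (hSs : Sᵀ = S) (hRs : Rᵀ = R) :
    (nU S * nL (-S⁻¹) * nU S) * (nU (-R⁻¹) * nL (-(-R⁻¹)⁻¹) * nU (-R⁻¹)) = mA (S * R) := by
  have huR : IsUnit R.det := isUnit_iff_ne_zero.2 hR
  have hR' : (-R⁻¹).det ≠ 0 := by
    rw [det_neg]
    refine mul_ne_zero (by simp) ?_
    rw [det_nonsing_inv]
    simpa using hR
  have h1 : (-R⁻¹)⁻¹ = -R := by
    apply inv_eq_right_inv
    simp [nonsing_inv_mul R huR]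
  rw [weyl hS, weyl hR', h1, mA, fromBlocks_multiply]
  rw [Matrix.mul_inv_rev, transpose_mul, transpose_nonsing_inv, transpose_nonsing_inv, hSs, hRs]
  simp

section
variable {V : Type} [AddCommGroup V] [Module ℂ V] (ρ : MM F m → (V →ₗ[ℂ] V))
  (h1 : ρ 1 = LinearMap.id) (hmul : ∀ g h, GS g → GS h → ρ (g * h) = ρ g ∘ₗ ρ h)
  (hU : ∀ X : Matrix (Fin m) (Fin m) F, Xᵀ = X → ρ (nU X) = LinearMap.id)
  (hL : ∀ X : Matrix (Fin m) (Fin m) F, Xᵀ = X → ρ (nL X) = LinearMap.id)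

include hmul hU hL in
lemma rho_weyl {S : Matrix (Fin m) (Fin m) F} (hSs : Sᵀ = S) : 
    ρ (nU S * nL (-S⁻¹) * nU S) = LinearMap.id ∧ GSc 1 (nU S * nL (-S⁻¹) * nU S) := by
  have hs : (-S⁻¹)ᵀ = -S⁻¹ := by rw [transpose_neg, transpose_nonsing_inv, hSs]
  have g1 := nU_gs hSs
  have g2 := nL_gs hs
  have g3 := g1.mul g2
  have g4 := g3.mul g1
  refine ⟨?_, by simpa using g4⟩
  rw [hmul _ _ g3.gs g1.gs, hmul _ _ g1.gs g2.gs, hU _ hSs, hL _ hs]
  rfl

include hmul hU hL in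
lemma rho_SR {S R : Matrix (Fin m) (Fin m) F} (hS : S.det ≠ 0) (hR : R.det ≠ 0) 
    (hSs : Sᵀ = S) (hRs : Rᵀ = R) : ρ (mA (S * R)) = LinearMap.id := by
  have hs : (-R⁻¹)ᵀ = -R⁻¹ := by rw [transpose_neg, transpose_nonsing_inv, hRs]
  obtain ⟨a1, a2⟩ := rho_weyl ρ hmul hU hL hSs
  obtain ⟨b1, b2⟩ := rho_weyl ρ hmul hU hL hs
  rw [← weyl_mul hS hR hSs hRs, hmul _ _ a2.gs b2.gs, a1, b1]
  rfl

include hmul hU hL in
lemma rho_mA {A : Matrix (Fin m) (Fin m) F} (hA : A.det ≠ 0) : ρ (mA A) = LinearMap.id := by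
  apply Matrix.diagonal_transvection_induction_of_det_ne_zero (fun A => ρ (mA A) = LinearMap.id) A hA
  · intro D hD
    have := rho_SR ρ hmul hU hL (S := diagonal D) (R := 1) hD (by simp) (by simp) (by simp)
    simpa using this
  · intro t
    have hne := t.hij
    have hP2 : swap F t.i t.j * swap F t.i t.j = 1 := swap_mul_self _ _
    have hPdet : (swap F t.i t.j).det ≠ 0 := by
      intro h0
      have := congrArg det hP2
      rw [det_mul, h0] at this
      simp at this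
    have hT : t.toMatrix = (t.toMatrix * swap F t.i t.j) * swap F t.i t.j := by
      rw [Matrix.mul_assoc, hP2, Matrix.mul_one]
    show ρ (mA t.toMatrix) = LinearMap.id
    rw [hT]
    apply rho_SR ρ hmul hU hL
    · rw [det_mul]; exact mul_ne_zero (by simp) hPdet
    · exact hPdet
    · -- symmetric
      have h3 : t.toMatrix * swap F t.i t.j = swap F t.i t.j + Matrix.single t.i t.i t.c := by
        rw [TransvectionStruct.toMatrix, transvection, Matrix.add_mul, Matrix.one_mul]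
        congr 1
        ext a b
        by_cases hb : b = t.i
        · subst hb
          rw [mul_swap_apply_left]
          simp [Matrix.single_apply]
        · by_cases hb2 : b = t.j
          · subst hb2
            rw [mul_swap_apply_right]
            simp [Matrix.single_apply, hne, hne.symm]
          · rw [mul_swap_of_ne hb hb2]
            simp [Matrix.single_apply, Ne.symm hb, Ne.symm hb2]
      rw [h3, transpose_add, transpose_swap, transpose_single]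
    · exact transpose_swap _ _
  · intro A B hA hB h2 h3
    show ρ (mA (A * B)) = LinearMap.id
    rw [mA_mul, hmul _ _ (mA_gs hA).gs (mA_gs hB).gs]
    rw [h2, h3]
    rfl

end

/-- rank-one improvement -/
lemma exists_symm (C : Matrix (Fin m) (Fin m) F) : ∀ n : ℕ, ∀ A : Matrix (Fin m) (Fin m) F, 
    (∀ v, A *ᵥ v = 0 → C *ᵥ v = 0 → v = 0) → 
    Module.finrank F (LinearMap.ker A.mulVecLin) ≤ n → 
    ∃ X : Matrix (Fin m) (Fin m) F, Xᵀ = X ∧ (A + X * C).det ≠ 0 := by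
  intro n
  induction n with
  | zero =>
    intro A _ hn
    refine ⟨0, by simp, ?_⟩
    rw [Matrix.zero_mul, add_zero]
    intro h0
    obtain ⟨v, hv, hv2⟩ := exists_mulVec_eq_zero_iff.2 h0
    have h2 : LinearMap.ker A.mulVecLin = ⊥ := by
      apply Submodule.finrank_eq_zero.1; omega
    have h3 : v ∈ LinearMap.ker A.mulVecLin := by simpa using hv2
    rw [h2] at h3
    exact hv (by simpa using h3)
  | succ n ih =>
    intro A hker hn
    by_cases hdet : A.det = 0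
    · obtain ⟨v, hv, hv2⟩ := exists_mulVec_eq_zero_iff.2 hdet
      obtain ⟨y, hy, hy2⟩ := exists_vecMul_eq_zero_iff.2 hdet
      have hCv : C *ᵥ v ≠ 0 := fun h => hv (hker v hv2 h)
      -- z with y·z ≠ 0 and z·Cv ≠ 0
      obtain ⟨z, hz1, hz2⟩ : ∃ z : Fin m → F, y ⬝ᵥ z ≠ 0 ∧ z ⬝ᵥ (C *ᵥ v) ≠ 0 := by
        have ha : ∃ a, y ⬝ᵥ a ≠ 0 := by
          by_contra hcon; push Not at hcon
          exact hy (dotProduct_eq_zero y hcon)
        have hb : ∃ b : Fin m → F, b ⬝ᵥ (C *ᵥ v) ≠ 0 := by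
          by_contra hcon; push Not at hcon
          apply hCv
          apply dotProduct_eq_zero
          intro w; rw [dotProduct_comm]; exact hcon w
        obtain ⟨a, ha⟩ := ha
        obtain ⟨b, hb⟩ := hb
        by_cases h3 : a ⬝ᵥ (C *ᵥ v) = 0
        · by_cases h4 : y ⬝ᵥ b = 0
          · exact ⟨a + b, by rw [dotProduct_add, h4, add_zero]; exact ha, by rw [add_dotProduct, h3, zero_add]; exact hb⟩
          · exact ⟨b, h4, hb⟩
        · exact ⟨a, ha, h3⟩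
      set A' := A + vecMulVec z z * C with hA'
      have hA'v : ∀ u, A' *ᵥ u = A *ᵥ u + (z ⬝ᵥ (C *ᵥ u)) • z := by
        intro u
        rw [hA', add_mulVec, ← mulVec_mulVec, vecMulVec_mulVec]
        congr 1
        ext i; simp [mul_comm]
      have hkerle : ∀ u, A' *ᵥ u = 0 → A *ᵥ u = 0 ∧ z ⬝ᵥ (C *ᵥ u) = 0 := by
        intro u hu
        rw [hA'v] at hu
        have h5 := congrArg (fun w => y ⬝ᵥ w) hu
        simp only [dotProduct_add, dotProduct_smul, dotProduct_zero, smul_eq_mul, dotProduct_mulVec, hy2, zero_dotProduct, zero_add] at h5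
        have h6 : z ⬝ᵥ (C *ᵥ u) = 0 := by
          rw [dotProduct_mulVec]
          exact (mul_eq_zero.1 h5).resolve_right hz1
        rw [h6, zero_smul, add_zero] at hu
        exact ⟨hu, h6⟩
      have hlt : LinearMap.ker A'.mulVecLin < LinearMap.ker A.mulVecLin := by
        refine lt_of_le_of_ne ?_ ?_
        · intro u hu
          simp only [LinearMap.mem_ker, mulVecLin_apply] at hu ⊢
          exact (hkerle u hu).1
        · intro heq
          have h7 : v ∈ LinearMap.ker A.mulVecLin := by simpa using hv2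
          rw [← heq] at h7
          simp only [LinearMap.mem_ker, mulVecLin_apply] at h7
          exact hz2 (hkerle v h7).2
      have hfr := Submodule.finrank_lt_finrank_of_lt hlt
      obtain ⟨X, hX, hX2⟩ := ih A' (fun w h8 h9 => hker w (hkerle w h8).1 h9) (by omega)
      refine ⟨vecMulVec z z + X, ?_, ?_⟩
      · rw [transpose_add, transpose_vecMulVec, hX]
      · rw [Matrix.add_mul, ← add_assoc]
        exact hX2
    · exact ⟨0, by simp, by simpa using hdet⟩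

lemma decomp {c : F} {g : MM F m} (hg : GSc c g) : ∃ X Y Z A : Matrix (Fin m) (Fin m) F, 
    Xᵀ = X ∧ Yᵀ = Y ∧ Zᵀ = Z ∧ A.det ≠ 0 ∧ nL Y * (nU X * g) * nU Z = mA A * tt c := by
  obtain ⟨A, B, C, D, rfl⟩ : ∃ A B C D, g = fromBlocks A B C D := ⟨_, _, _, _, (fromBlocks_toBlocks g).symm⟩
  have hb := GSc_blocks.1 hg
  have hker : ∀ v, A *ᵥ v = 0 → C *ᵥ v = 0 → v = 0 := by
    intro v h1 h2
    have h3 := congrArg (fun M => M *ᵥ v) hb.2.2.2.2
    simp only [sub_mulVec, ← mulVec_mulVec, h1, h2, mulVec_zero, sub_zero, smul_mulVec, one_mulVec] at h3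
    exact (smul_eq_zero.1 h3.symm).resolve_left hb.1
  obtain ⟨X, hX, hdet⟩ := exists_symm C _ A hker le_rfl
  have hg' : GSc c (nU X * fromBlocks A B C D) := by
    have := (nU_gs hX).mul hg
    rwa [one_mul] at this
  have he : nU X * fromBlocks A B C D = fromBlocks (A + X * C) (B + X * D) C D := by
    simp [nU, fromBlocks_multiply]
  rw [he] at hg'
  set A' := A + X * C with hA'
  set B' := B + X * D with hB'
  have hu : IsUnit A'.det := isUnit_iff_ne_zero.2 hdet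
  have huT : IsUnit A'ᵀ.det := by rwa [det_transpose]
  have hb' := GSc_blocks.1 hg'
  -- Y = - C A'⁻¹
  have hYs : (-(C * A'⁻¹))ᵀ = -(C * A'⁻¹) := by
    rw [transpose_neg, transpose_mul, transpose_nonsing_inv]
    congr 1
    have h1 := hb'.2.1
    calc A'ᵀ⁻¹ * Cᵀ = A'ᵀ⁻¹ * (Cᵀ * A') * A'⁻¹ := by
          rw [Matrix.mul_assoc, Matrix.mul_assoc, mul_nonsing_inv A' hu, Matrix.mul_one]
      _ = A'ᵀ⁻¹ * (A'ᵀ * C) * A'⁻¹ := by rw [h1]
      _ = C * A'⁻¹ := by rw [← Matrix.mul_assoc, nonsing_inv_mul _ huT, Matrix.one_mul]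
  have hg2 : GSc c (nL (-(C * A'⁻¹)) * fromBlocks A' B' C D) := by
    have := (nL_gs hYs).mul hg'
    rwa [one_mul] at this
  set D' := D - C * A'⁻¹ * B' with hD'
  have he2 : nL (-(C * A'⁻¹)) * fromBlocks A' B' C D = fromBlocks A' B' 0 D' := by
    rw [nL, fromBlocks_multiply, fromBlocks_inj]
    refine ⟨by simp, by simp, ?_, ?_⟩
    · rw [Matrix.one_mul, Matrix.neg_mul, Matrix.mul_assoc, nonsing_inv_mul A' hu, Matrix.mul_one, neg_add_cancel]
    · rw [hD', Matrix.one_mul, Matrix.neg_mul]; abel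
  rw [he2] at hg2
  have hb2 := GSc_blocks.1 hg2
  have hAD : A'ᵀ * D' = c • 1 := by simpa using hb2.2.2.1
  have hD'' : D' = c • (A'⁻¹)ᵀ := by
    rw [transpose_nonsing_inv]
    calc D' = A'ᵀ⁻¹ * (A'ᵀ * D') := by rw [← Matrix.mul_assoc, nonsing_inv_mul _ huT, Matrix.one_mul]
      _ = c • A'ᵀ⁻¹ := by rw [hAD]; simp
  have hZs : (-(A'⁻¹ * B'))ᵀ = -(A'⁻¹ * B') := by
    rw [transpose_neg]
    congr 1
    have h1 := hb2.2.2.2.1
    rw [hD'', transpose_smul, transpose_transpose, Matrix.smul_mul, Matrix.mul_smul] at h1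
    have h2 := smul_right_injective _ hb.1 h1
    rw [transpose_mul]
    exact h2.symm
  refine ⟨X, -(C * A'⁻¹), -(A'⁻¹ * B'), A', hX, hYs, hZs, hdet, ?_⟩
  rw [he, he2, nU, mA, tt, fromBlocks_multiply, fromBlocks_multiply, fromBlocks_inj]
  refine ⟨by simp, ?_, by simp, ?_⟩
  · simp [← Matrix.mul_assoc, mul_nonsing_inv A' hu]
  · simp [hD'']

section
variable {V : Type} [AddCommGroup V] [Module ℂ V] (ρ : MM F m → (V →ₗ[ℂ] V))
  (h1 : ρ 1 = LinearMap.id) (hmul : ∀ g h, GS g → GS h → ρ (g * h) = ρ g ∘ₗ ρ h)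
  (hU : ∀ X : Matrix (Fin m) (Fin m) F, Xᵀ = X → ρ (nU X) = LinearMap.id)
  (hL : ∀ X : Matrix (Fin m) (Fin m) F, Xᵀ = X → ρ (nL X) = LinearMap.id)

include hmul hU hL in
lemma rho_eq {c : F} {g : MM F m} (hg : GSc c g) : ρ g = ρ (tt c) := by
  obtain ⟨X, Y, Z, A, hX, hY, hZ, hA, he⟩ := decomp hg
  have g1 := (nU_gs hX).mul hg
  have g2 := (nL_gs hY).mul g1
  have h2 := congrArg ρ he
  rw [hmul _ _ g2.gs (nU_gs hZ).gs, hmul _ _ (nL_gs hY).gs g1.gs, hmul _ _ (nU_gs hX).gs hg.gs,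
    hmul _ _ (mA_gs hA).gs (tt_gs hg.1).gs, hU _ hX, hU _ hZ, hL _ hY, rho_mA ρ hmul hU hL hA] at h2
  exact h2

end

end Pool.Agent.H3.GSp
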