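import Pool.Agent.H3.GSp.Unip
import Pool.Agent.H3.GSp.Mat

set_option autoImplicit false

namespace Pool.Agent.H3.GSp

open Matrix

variable {p : ℕ} [hp : Fact p.Prime] {m : ℕ}

lemma tt_eq (a : ℚ_[p]) : (tt a : MM ℚ_[p] m) = 
    Matrix.diagonal (Sum.elim (fun _ : Fin m => (1 : ℚ_[p])) (fun _ : Fin m => a)) := by
  rw [tt, ← diagonal_one, ← fromBlocks_diagonal]
  congr 1
  ext i j
  simp [Matrix.diagonal_apply, Matrix.one_apply]

lemma tt_mul_apply (a : ℚ_[p]) (ha : ‖a‖ = 1) (M : MM ℚ_[p] m) (i j) : ‖((tt a : MM ℚ_[p] m) * M) i j‖ = ‖M i j‖ := by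
  rw [tt_eq, Matrix.diagonal_mul]
  rcases i with i | i
  · simp
  · simp [ha]

lemma tt_mul_tt (a b : ℚ_[p]) : (tt (a * b) : MM ℚ_[p] m) = tt a * tt b := by
  rw [tt_eq, tt_eq, tt_eq, diagonal_mul_diagonal]
  congr 1
  ext i
  rcases i with i | i <;> simp

lemma tt_one : (tt 1 : MM ℚ_[p] m) = 1 := by simp [tt]

variable {V : Type} [AddCommGroup V] [Module ℂ V] (ρ : MM ℚ_[p] m → (V →ₗ[ℂ] V))
  (h1 : ρ 1 = LinearMap.id) (hmul : ∀ g h, GS g → GS h → ρ (g * h) = ρ g ∘ₗ ρ h)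
  (hsm : ∀ v : V, ∃ k : ℕ, ∀ g, GS g → (∀ i j, ‖(g - 1) i j‖ ≤ (p : ℝ) ^ (-(k : ℤ))) → ρ g v = v)

lemma exists_bound (E : Matrix (Fin m) (Fin m) ℚ_[p]) : ∃ N : ℕ, ∀ i j, ‖E i j‖ ≤ (p : ℝ) ^ N := by
  have hp1 : (1 : ℝ) < p := by exact_mod_cast hp.out.one_lt
  obtain ⟨N, hN⟩ := pow_unbounded_of_one_lt (∑ i, ∑ j, ‖E i j‖) hp1
  refine ⟨N, fun i j => le_trans ?_ hN.le⟩
  calc ‖E i j‖ ≤ ∑ j, ‖E i j‖ := Finset.single_le_sum (f := fun j => ‖E i j‖) (fun _ _ => norm_nonneg _) (Finset.mem_univ j)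
    _ ≤ ∑ i, ∑ j, ‖E i j‖ := Finset.single_le_sum (f := fun i => ∑ j, ‖E i j‖) 
        (fun _ _ => Finset.sum_nonneg fun _ _ => norm_nonneg _) (Finset.mem_univ i)

include hsm in
lemma smooth_t (v : V) : ∃ k : ℕ, ∀ a : ℚ_[p], ‖a‖ = 1 → ‖a - 1‖ ≤ (p : ℝ) ^ (-(k : ℤ)) → ρ (tt a) v = v := by
  obtain ⟨k, hk⟩ := hsm v
  refine ⟨k, fun a ha ha' => hk _ (tt_gs (by rintro rfl; simp at ha)).gs fun i j => ?_⟩
  have hp0 : (0 : ℝ) ≤ (p : ℝ) ^ (-(k : ℤ)) := by positivity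
  rw [tt_eq, ← diagonal_one, diagonal_sub, diagonal_apply]
  split_ifs with h
  · rcases i with i | i
    · simpa using hp0
    · simpa using ha'
  · simpa using hp0

include hsm in
lemma smooth_u (b : Bool) (E : Matrix (Fin m) (Fin m) ℚ_[p]) (hE : Eᵀ = E) (v : V) : 
    ∃ k : ℕ, ∀ x : ℚ_[p], ‖x‖ ≤ (p : ℝ) ^ (-(k : ℤ)) → 
      ρ (if b then nU (x • E) else nL (x • E)) v = v := by
  obtain ⟨k, hk⟩ := hsm v
  obtain ⟨N, hN⟩ := exists_bound E
  have hp0 : (0 : ℝ) < p := by exact_mod_cast hp.out.pos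
  refine ⟨k + N, fun x hx => hk _ ?_ fun i j => ?_⟩
  · have hE' : (x • E)ᵀ = x • E := by rw [transpose_smul, hE]
    split_ifs
    · exact (nU_gs hE').gs
    · exact (nL_gs hE').gs
  · have hz : (0 : ℝ) ≤ (p : ℝ) ^ (-(k : ℤ)) := by positivity
    have hb : ∀ i j, ‖x * E i j‖ ≤ (p : ℝ) ^ (-(k : ℤ)) := by
      intro i j
      rw [norm_mul]
      calc ‖x‖ * ‖E i j‖ ≤ (p : ℝ) ^ (-((k + N : ℕ) : ℤ)) * (p : ℝ) ^ N := by
            gcongr
            exact hN i j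
        _ = _ := by
            rw [← zpow_natCast, ← zpow_add₀ hp0.ne']; congr 1; push_cast; ring
    split_ifs
    · have h2 : nU (x • E) - 1 = fromBlocks 0 (x • E) 0 0 := by
        rw [nU, ← fromBlocks_one, sub_eq_add_neg, fromBlocks_neg, fromBlocks_add]; simp
      rw [h2]
      rcases i with i | i <;> rcases j with j | j
      · simpa using hz
      · simpa using hb i j
      · simpa using hz
      · simpa using hz
    · have h2 : nL (x • E) - 1 = fromBlocks 0 0 (x • E) 0 := by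
        rw [nL, ← fromBlocks_one, sub_eq_add_neg, fromBlocks_neg, fromBlocks_add]; simp
      rw [h2]
      rcases i with i | i <;> rcases j with j | j
      · simpa using hz
      · simpa using hz
      · simpa using hb i j
      · simpa using hz

include h1 hmul hsm in
lemma nU_trivial (hno : ∀ v, (∀ a : ℚ_[p], ‖a‖ = 1 → ρ (tt a) v = v) → v = 0) 
    (E : Matrix (Fin m) (Fin m) ℚ_[p]) (hE : Eᵀ = E) : ρ (nU E) = LinearMap.id := by
  have hne : ∀ a : ℚ_[p], ‖a‖ = 1 → a ≠ 0 := by rintro a ha rfl; simp at ha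
  have hEx : ∀ x : ℚ_[p], (x • E)ᵀ = x • E := fun x => by rw [transpose_smul, hE]
  have key := unip_trivial (p := p) (fun x => ρ (nU (x • E))) (fun a => ρ (tt a)) ?_ ?_ ?_ ?_ ?_ ?_ hno
  · ext v
    simpa using key 1 v
  · simp only [zero_smul]
    rw [← h1]; congr 1; simp [nU]
  · intro x y
    rw [← hmul _ _ (nU_gs (hEx x)).gs (nU_gs (hEx y)).gs]
    congr 1
    simp [nU, fromBlocks_multiply, add_smul, add_comm]
  · simp only [tt_one, h1]
  · intro a b ha hb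
    rw [tt_mul_tt, hmul _ _ (tt_gs (hne a ha)).gs (tt_gs (hne b hb)).gs]
  · intro a x ha
    rw [← hmul _ _ (nU_gs (hEx x)).gs (tt_gs (hne a ha)).gs, ← hmul _ _ (tt_gs (hne a ha)).gs (nU_gs (hEx _)).gs]
    congr 1
    simp [nU, tt, fromBlocks_multiply, smul_smul]
  · intro v
    obtain ⟨k1, hk1⟩ := smooth_t ρ hsm v
    obtain ⟨k2, hk2⟩ := smooth_u ρ hsm true E hE v
    have hp1 : (1 : ℝ) ≤ p := by exact_mod_cast hp.out.one_lt.le
    refine ⟨k1 + k2, fun x hx => ?_, fun a ha ha' => hk1 a ha (ha'.trans ?_)⟩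
    · have := hk2 x (hx.trans (by apply zpow_le_zpow_right₀ hp1; push_cast; omega))
      simpa using this
    · apply zpow_le_zpow_right₀ hp1; push_cast; omega

include h1 hmul hsm in
lemma nL_trivial (hno : ∀ v, (∀ a : ℚ_[p], ‖a‖ = 1 → ρ (tt a) v = v) → v = 0) 
    (E : Matrix (Fin m) (Fin m) ℚ_[p]) (hE : Eᵀ = E) : ρ (nL E) = LinearMap.id := by
  have hne : ∀ a : ℚ_[p], ‖a‖ = 1 → a ≠ 0 := by rintro a ha rfl; simp at ha
  have hinv : ∀ a : ℚ_[p], ‖a‖ = 1 → ‖a⁻¹‖ = 1 := by intro a ha; rw [norm_inv, ha, inv_one]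
  have hEx : ∀ x : ℚ_[p], (x • E)ᵀ = x • E := fun x => by rw [transpose_smul, hE]
  have key := unip_trivial (p := p) (fun x => ρ (nL (x • E))) (fun a => ρ (tt a⁻¹)) ?_ ?_ ?_ ?_ ?_ ?_ ?_
  · ext v
    simpa using key 1 v
  · simp only [zero_smul]
    rw [← h1]; congr 1; simp [nL]
  · intro x y
    rw [← hmul _ _ (nL_gs (hEx x)).gs (nL_gs (hEx y)).gs]
    congr 1
    simp [nL, fromBlocks_multiply, add_smul]
  · simp only [inv_one, tt_one, h1]
  · intro a b ha hb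
    rw [mul_inv, tt_mul_tt, hmul _ _ (tt_gs (hne _ (hinv a ha))).gs (tt_gs (hne _ (hinv b hb))).gs]
  · intro a x ha
    have ha0 := hne a ha
    rw [← hmul _ _ (nL_gs (hEx x)).gs (tt_gs (inv_ne_zero ha0)).gs, ← hmul _ _ (tt_gs (inv_ne_zero ha0)).gs (nL_gs (hEx _)).gs]
    congr 1
    have h2 : a * x * a⁻¹ = x := by field_simp
    simp [nL, tt, fromBlocks_multiply, smul_smul, h2]
  · intro v
    obtain ⟨k1, hk1⟩ := smooth_t ρ hsm v
    obtain ⟨k2, hk2⟩ := smooth_u ρ hsm false E hE v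
    have hp1 : (1 : ℝ) ≤ p := by exact_mod_cast hp.out.one_lt.le
    refine ⟨k1 + k2, fun x hx => ?_, fun a ha ha' => hk1 a⁻¹ (hinv a ha) ?_⟩
    · have := hk2 x (hx.trans (by apply zpow_le_zpow_right₀ hp1; push_cast; omega))
      simpa using this
    · have h5 : ‖a⁻¹ - 1‖ = ‖a - 1‖ := by
        have ha0 := hne a ha
        have : a⁻¹ - 1 = -(a⁻¹ * (a - 1)) := by field_simp; ring
        rw [this, norm_neg, norm_mul, hinv a ha, one_mul]
      rw [h5]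
      refine ha'.trans ?_
      apply zpow_le_zpow_right₀ hp1; push_cast; omega
  · intro v hv
    apply hno
    intro a ha
    have := hv a⁻¹ (hinv a ha)
    simpa using this

include h1 hmul hsm in
theorem final (hadm : ∀ k : ℕ, ∃ s : Finset V, ∀ v : V, (∀ g, GS g → 
      (∀ i j, ‖(g - 1) i j‖ ≤ (p : ℝ) ^ (-(k : ℤ))) → ρ g v = v) → v ∈ Submodule.span ℂ (s : Set V))
    (hnt : Nontrivial V)
    (hirr : ∀ W : Submodule ℂ V, (∀ g, GS g → ∀ w ∈ W, ρ g w ∈ W) → W = ⊥ ∨ W = ⊤)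
    (hinf : ¬ Module.Finite ℂ V) : 
    ∃ n : ℕ, ∃ v : V, v ≠ 0 ∧ ∀ g, GS g → (∃ a : ℚ_[p], ‖a‖ = 1 ∧ ∀ i j,
          ‖(g - Matrix.diagonal (Sum.elim (fun _ : Fin m => (1 : ℚ_[p])) (fun _ : Fin m => a))) i j‖
            ≤ (p : ℝ) ^ (-(n : ℤ))) → ρ g v = v := by
  have hne : ∀ a : ℚ_[p], ‖a‖ = 1 → a ≠ 0 := by rintro a ha rfl; simp at ha
  by_contra hcon
  have hno : ∀ v, (∀ a : ℚ_[p], ‖a‖ = 1 → ρ (tt a) v = v) → v = 0 := by
    intro v hv
    by_contra hv0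
    apply hcon
    obtain ⟨k, hk⟩ := hsm v
    refine ⟨k, v, hv0, ?_⟩
    rintro g hg ⟨a, ha, hga⟩
    have ha0 := hne a ha
    have hinv : ‖a⁻¹‖ = 1 := by rw [norm_inv, ha, inv_one]
    have hgc : GS (tt a⁻¹ * g) := by
      obtain ⟨c, hc⟩ := hg
      exact ((tt_gs (inv_ne_zero ha0)).mul hc).gs
    have hge : g = tt a * (tt a⁻¹ * g) := by
      rw [← Matrix.mul_assoc, ← tt_mul_tt, mul_inv_cancel₀ ha0, tt_one, Matrix.one_mul]
    rw [hge, hmul _ _ (tt_gs ha0).gs hgc, LinearMap.comp_apply, hk _ hgc, hv a ha]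
    intro i j
    have h2 : tt a⁻¹ * g - 1 = tt a⁻¹ * (g - tt a) := by
      rw [Matrix.mul_sub, ← tt_mul_tt, inv_mul_cancel₀ ha0, tt_one]
    rw [h2, tt_mul_apply _ hinv, tt_eq]
    exact hga i j
  have hU := nU_trivial ρ h1 hmul hsm hno
  have hL := nL_trivial ρ h1 hmul hsm hno
  -- rho depends only on the multiplier
  have hrho : ∀ g c, GSc c g → ρ g = ρ (tt c) := fun g c hg => rho_eq ρ hmul hU hL hg
  obtain ⟨v, hv⟩ := exists_ne (0 : V)
  obtain ⟨k, hk⟩ := hsm v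
  set W : Submodule ℂ V := 
    { carrier := {w | ∀ g, GS g → (∀ i j, ‖(g - 1) i j‖ ≤ (p : ℝ) ^ (-(k : ℤ))) → ρ g w = w}
      add_mem' := by
        intro a b ha hb g hg hg'
        rw [map_add, ha g hg hg', hb g hg hg']
      zero_mem' := fun g _ _ => map_zero _
      smul_mem' := by
        intro c a ha g hg hg'
        rw [map_smul, ha g hg hg'] } with hW
  have hstab : ∀ g, GS g → ∀ w ∈ W, ρ g w ∈ W := by
    intro g hg w hw h hh hh'
    obtain ⟨c, hc⟩ := hg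
    obtain ⟨d, hd⟩ := hh
    have hcg : GSc c g := hc
    have hdh : GSc d h := hd
    rw [← LinearMap.comp_apply, ← hmul _ _ hdh.gs hcg.gs, hrho _ _ (hdh.mul hcg), mul_comm, 
      ← hrho _ _ (hcg.mul hdh), hmul _ _ hcg.gs hdh.gs, LinearMap.comp_apply, hw h hdh.gs hh']
  rcases hirr W hstab with h | h
  · have : v ∈ W := hk
    rw [h] at this
    exact hv (by simpa using this)
  · obtain ⟨s, hs⟩ := hadm k
    apply hinf
    refine ⟨s, ?_⟩
    rw [eq_top_iff]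
    intro w _
    apply hs
    have : w ∈ W := by rw [h]; trivial
    exact this

end Pool.Agent.H3.GSp
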