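import Mathlib

set_option autoImplicit false

namespace Pool.Agent.H3.GSp

open Polynomial

variable {p : ℕ} [hp : Fact p.Prime] {V : Type} [AddCommGroup V] [Module ℂ V]

/-- existence of eigenvectors inside a stable submodule -/
lemma exists_eigen (f : V →ₗ[ℂ] V) (S : Submodule ℂ V) (hS : ∀ w ∈ S, f w ∈ S) (s : Finset ℂ) :
    ∀ y ∈ S, y ≠ 0 → (aeval f (∏ μ ∈ s, (X - C μ))) y = 0 → 
    ∃ μ ∈ s, ∃ z ∈ S, z ≠ 0 ∧ f z = μ • z := by
  induction s using Finset.induction_on with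
  | empty => intro y _ hy h; simp at h; exact absurd h hy
  | insert a s ha ih =>
    intro y hyS hy h
    rw [Finset.prod_insert ha, mul_comm, map_mul] at h
    have h1 : (aeval f (X - C a)) y = f y - a • y := by simp [Algebra.algebraMap_eq_smul_one]
    rw [Module.End.mul_apply, h1] at h
    by_cases hz : f y - a • y = 0
    · exact ⟨a, Finset.mem_insert_self _ _, y, hyS, hy, sub_eq_zero.1 hz⟩
    · obtain ⟨μ, hμ, z, hz⟩ := ih (f y - a • y) (S.sub_mem (hS _ hyS) (S.smul_mem _ hyS)) hz h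
      exact ⟨μ, Finset.mem_insert_of_mem hμ, z, hz⟩

lemma exists_nat_approx (x : ℚ_[p]) (hx : ‖x‖ ≤ 1) (n : ℕ) : ∃ j : ℕ, ‖x - j‖ ≤ (p : ℝ) ^ (-(n : ℤ)) := by
  obtain ⟨z, rfl⟩ : ∃ z : ℤ_[p], (z : ℚ_[p]) = x := ⟨⟨x, hx⟩, rfl⟩
  refine ⟨z.appr n, ?_⟩
  have h := PadicInt.appr_spec n z
  rw [← PadicInt.norm_le_pow_iff_mem_span_pow, PadicInt.norm_def] at h
  push_cast at h
  exact h

/-- representatives of the units mod `p^m` -/
noncomputable def rep {m : ℕ} (a : (ZMod (p ^ m))ˣ) : ℚ_[p] := ((a : ZMod (p ^ m)).val : ℚ_[p])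

lemma rep_norm {m : ℕ} (hm : 1 ≤ m) (a : (ZMod (p ^ m))ˣ) : ‖rep (p := p) a‖ = 1 := by
  rw [rep, Padic.norm_natCast_eq_one_iff]
  have h := ZMod.val_coe_unit_coprime a
  exact (Nat.Coprime.coprime_dvd_right (dvd_pow_self p (by omega)) h).symm

lemma rep_mul {m : ℕ} (c : ℚ_[p]) (hc : ‖c‖ = 1) : ∃ d : (ZMod (p ^ m))ˣ, 
    ∀ a, ‖c * rep a - rep (d * a)‖ ≤ (p : ℝ) ^ (-(m : ℤ)) := by
  have : NeZero (p ^ m) := ⟨(pow_pos hp.out.pos m).ne'⟩
  obtain ⟨c, rfl⟩ : ∃ z : ℤ_[p], (z : ℚ_[p]) = c := ⟨⟨c, hc.le⟩, rfl⟩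
  have hu : IsUnit c := PadicInt.isUnit_iff.2 hc
  obtain ⟨u, hu⟩ := hu
  refine ⟨Units.map (PadicInt.toZModPow m).toMonoidHom u, fun a => ?_⟩
  have key : PadicInt.toZModPow m (c * (((a : ZMod (p ^ m)).val : ℕ) : ℤ_[p]) - 
      ((((Units.map (PadicInt.toZModPow m).toMonoidHom u * a : (ZMod (p ^ m))ˣ) : ZMod (p ^ m)).val : ℕ) : ℤ_[p])) = 0 := by
    rw [map_sub, map_mul, map_natCast, map_natCast, ZMod.natCast_zmod_val, ZMod.natCast_zmod_val, ← hu]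
    simp
  have h2 : (c * (((a : ZMod (p ^ m)).val : ℕ) : ℤ_[p]) - 
      ((((Units.map (PadicInt.toZModPow m).toMonoidHom u * a : (ZMod (p ^ m))ˣ) : ZMod (p ^ m)).val : ℕ) : ℤ_[p])) ∈ 
      (Ideal.span {(p : ℤ_[p]) ^ m} : Ideal ℤ_[p]) := by
    rw [← PadicInt.ker_toZModPow]; exact key
  rw [← PadicInt.norm_le_pow_iff_mem_span_pow, PadicInt.norm_def] at h2
  push_cast at h2
  exact h2

section
variable (u t : ℚ_[p] → (V →ₗ[ℂ] V))
  (hu0 : u 0 = LinearMap.id) (hu : ∀ x y, u (x + y) = u x ∘ₗ u y)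
  (ht1 : t 1 = LinearMap.id) (ht : ∀ a b, ‖a‖ = 1 → ‖b‖ = 1 → t (a * b) = t a ∘ₗ t b)
  (hut : ∀ a x, ‖a‖ = 1 → u x ∘ₗ t a = t a ∘ₗ u (a * x))

/-- vectors fixed at levels `r` (for `u`) and `m` (for `t`) -/
def SS (r : ℤ) (m : ℕ) : Submodule ℂ V where
  carrier := {w | (∀ x, ‖x‖ ≤ (p : ℝ) ^ (-r) → u x w = w) ∧ 
    ∀ a, ‖a‖ = 1 → ‖a - 1‖ ≤ (p : ℝ) ^ (-(m : ℤ)) → t a w = w}
  add_mem' := by
    rintro v w ⟨hv1, hv2⟩ ⟨hw1, hw2⟩
    exact ⟨fun x hx => by rw [map_add, hv1 x hx, hw1 x hx], fun a ha ha' => by rw [map_add, hv2 a ha ha', hw2 a ha ha']⟩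
  zero_mem' := ⟨fun x _ => map_zero _, fun a _ _ => map_zero _⟩
  smul_mem' := by
    rintro c v ⟨hv1, hv2⟩
    exact ⟨fun x hx => by rw [map_smul, hv1 x hx], fun a ha ha' => by rw [map_smul, hv2 a ha ha']⟩

include hu hu0 in
lemma u_nat (x : ℚ_[p]) (n : ℕ) (v : V) : u ((n : ℚ_[p]) * x) v = ((u x) ^ n) v := by
  induction n with
  | zero => simp [hu0]
  | succ n ih =>
    rw [Nat.cast_succ, add_mul, one_mul, add_comm, hu, LinearMap.comp_apply, ih, pow_succ', Module.End.mul_apply]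

include hu in
lemma u_comm (x y : ℚ_[p]) (v : V) : u x (u y v) = u y (u x v) := by
  rw [← LinearMap.comp_apply, ← LinearMap.comp_apply, ← hu, ← hu, add_comm]

include hu hut in
lemma SS_stable (r : ℤ) (m : ℕ) : ∀ w ∈ SS u t r m, u ((p : ℚ_[p]) ^ (r - m)) w ∈ SS u t r m := by
  rintro w ⟨h1, h2⟩
  refine ⟨fun x hx => ?_, fun a ha ha' => ?_⟩
  · rw [u_comm u hu, h1 x hx]
  · -- t a (u y w) = u (a⁻¹ y) (t a w)
    have ha0 : a ≠ 0 := by rintro rfl; simp at ha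
    have ha1 : ‖a⁻¹‖ = 1 := by rw [norm_inv, ha, inv_one]
    have h3 : t a (u ((p : ℚ_[p]) ^ (r - m)) w) = u (a⁻¹ * (p : ℚ_[p]) ^ (r - m)) (t a w) := by
      have := congrArg (fun g => g w) (hut a (a⁻¹ * (p : ℚ_[p]) ^ (r - m)) ha)
      simp only [LinearMap.comp_apply] at this
      rw [this, ← mul_assoc, mul_inv_cancel₀ ha0, one_mul]
    rw [h3, h2 a ha ha']
    have h4 : a⁻¹ * (p : ℚ_[p]) ^ (r - m) = (p : ℚ_[p]) ^ (r - m) + (a⁻¹ - 1) * (p : ℚ_[p]) ^ (r - m) := by ring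
    rw [h4, hu, LinearMap.comp_apply]
    congr 1
    apply h1
    rw [norm_mul, Padic.norm_p_zpow]
    have h5 : ‖a⁻¹ - 1‖ = ‖a - 1‖ := by
      have : a⁻¹ - 1 = -(a⁻¹ * (a - 1)) := by field_simp; ring
      rw [this, norm_neg, norm_mul, ha1, one_mul]
    rw [h5]
    have hp0 : (0 : ℝ) < p := by exact_mod_cast hp.out.pos
    calc ‖a - 1‖ * (p : ℝ) ^ (-(r - m)) ≤ (p : ℝ) ^ (-(m : ℤ)) * (p : ℝ) ^ (-(r - m)) := by gcongr
      _ = (p : ℝ) ^ (-r) := by rw [← zpow_add₀ hp0.ne']; congr 1; ring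

include hu0 hu ht1 ht hut in
lemma step (hno : ∀ v, (∀ a, ‖a‖ = 1 → t a v = v) → v = 0) (r : ℤ) (m : ℕ) (hm : 1 ≤ m) (v : V) 
    (hv : v ∈ SS u t r m) : v ∈ SS u t (r - 1) m := by
  have hp0 : (0 : ℝ) < p := by exact_mod_cast hp.out.pos
  have hpQ : (p : ℚ_[p]) ≠ 0 := by exact_mod_cast hp.out.ne_zero
  set f := u ((p : ℚ_[p]) ^ (r - m)) with hf
  have hstab := SS_stable u t hu hut r m
  rw [← hf] at hstab
  have hpm : ∀ w ∈ SS u t r m, (f ^ (p ^ m)) w = w := by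
    intro w hw
    rw [hf, ← u_nat u hu0 hu]
    apply hw.1
    push_cast
    rw [← zpow_natCast, ← zpow_add₀ hpQ, Padic.norm_p_zpow]
    apply le_of_eq
    congr 1; ring
  -- eigenvectors with primitive eigenvalue do not exist
  have hnoeig : ∀ ζ : ℂ, IsPrimitiveRoot ζ (p ^ m) → ∀ z ∈ SS u t r m, f z = ζ • z → z = 0 := by
    intro ζ hζ z hz hfz
    by_contra hz0
    have hfn : ∀ n : ℕ, (f ^ n) z = ζ ^ n • z := by
      intro n
      induction n with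
      | zero => simp
      | succ n ih => rw [pow_succ', Module.End.mul_apply, ih, map_smul, hfz, smul_smul, pow_succ]
    have : NeZero (p ^ m) := ⟨(pow_pos hp.out.pos m).ne'⟩
    -- t a z depends only on a mod p^m
    have hcong : ∀ a b, ‖a‖ = 1 → ‖b‖ = 1 → ‖a - b‖ ≤ (p : ℝ) ^ (-(m : ℤ)) → t a z = t b z := by
      intro a b ha hb hab
      have hb0 : b ≠ 0 := by rintro rfl; simp at hb
      have h1 : ‖b⁻¹ * a‖ = 1 := by rw [norm_mul, norm_inv, ha, hb]; simp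
      have h2 : a = b * (b⁻¹ * a) := by field_simp
      rw [h2, ht _ _ hb h1, LinearMap.comp_apply, hz.2 _ h1]
      have h3 : b⁻¹ * a - 1 = b⁻¹ * (a - b) := by field_simp
      rw [h3, norm_mul, norm_inv, hb, inv_one, one_mul]
      exact hab
    have hinj : ∀ a, ‖a‖ = 1 → ∀ w, t a w = 0 → w = 0 := by
      intro a ha w hw
      have ha0 : a ≠ 0 := by rintro rfl; simp at ha
      have h1 : t (a⁻¹ * a) w = 0 := by
        rw [ht _ _ (by rw [norm_inv, ha, inv_one]) ha, LinearMap.comp_apply, hw, map_zero]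
      rwa [inv_mul_cancel₀ ha0, ht1] at h1
    have heig : ∀ a : (ZMod (p ^ m))ˣ, Module.End.HasEigenvector f (ζ ^ (a : ZMod (p ^ m)).val) (t (rep a) z) := by
      intro a
      constructor
      · rw [Module.End.mem_eigenspace_iff]
        have := congrArg (fun g => g z) (hut (rep a) ((p : ℚ_[p]) ^ (r - m)) (rep_norm hm a))
        simp only [LinearMap.comp_apply] at this
        rw [hf, this, rep, u_nat u hu0 hu, ← hf, hfn, map_smul]
      · intro h0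
        exact hz0 (hinj _ (rep_norm hm a) _ h0)
    have hli : LinearIndependent ℂ (fun a : (ZMod (p ^ m))ˣ => t (rep a) z) := by
      apply Module.End.eigenvectors_linearIndependent' f (fun a : (ZMod (p ^ m))ˣ => ζ ^ (a : ZMod (p ^ m)).val) _ _ heig
      intro a b hab
      have := hζ.pow_inj (ZMod.val_lt _) (ZMod.val_lt _) hab
      exact Units.ext (ZMod.val_injective _ this)
    have hs0 : ∑ a : (ZMod (p ^ m))ˣ, t (rep a) z = 0 := by
      apply hno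
      intro c hc
      obtain ⟨d, hd⟩ := rep_mul (p := p) (m := m) c hc
      rw [map_sum]
      have h1 : ∀ a : (ZMod (p ^ m))ˣ, t c (t (rep a) z) = t (rep (d * a)) z := by
        intro a
        rw [← LinearMap.comp_apply, ← ht _ _ hc (rep_norm hm a)]
        exact hcong _ _ (by rw [norm_mul, hc, rep_norm hm a, one_mul]) (rep_norm hm _) (hd a)
      simp only [h1]
      exact Fintype.sum_equiv (Equiv.mulLeft d) _ _ (fun a => rfl)
    rw [Fintype.linearIndependent_iff] at hli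
    have h2 := hli (fun _ => 1) (by simpa using hs0) 1
    exact one_ne_zero h2
  -- now conclude
  obtain ⟨k, rfl⟩ : ∃ k, m = k + 1 := ⟨m - 1, by omega⟩
  have hy0 : (f ^ (p ^ k)) v - v = 0 := by
    by_contra hy
    have hfpow : ∀ n : ℕ, ∀ w ∈ SS u t r (k + 1), (f ^ n) w ∈ SS u t r (k + 1) := by
      intro n
      induction n with
      | zero => intro w hw; simpa using hw
      | succ n ih => intro w hw; rw [pow_succ', Module.End.mul_apply]; exact hstab _ (ih w hw)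
    have hyS : (f ^ (p ^ k)) v - v ∈ SS u t r (k + 1) := Submodule.sub_mem _ (hfpow _ v hv) hv
    set ζ := Complex.exp (2 * Real.pi * Complex.I / ((p ^ (k + 1) : ℕ) : ℂ)) with hζ
    have hprim : IsPrimitiveRoot ζ (p ^ (k + 1)) := 
      Complex.isPrimitiveRoot_exp _ (pow_pos hp.out.pos _).ne'
    have hcyc := cyclotomic_prime_pow_mul_X_pow_sub_one ℂ p k
    have h1 : (aeval f (cyclotomic (p ^ (k + 1)) ℂ)) ((f ^ (p ^ k)) v - v) = 0 := by
      have h2 := congrArg (fun q => (aeval f q) v) hcyc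
      simp only [map_mul, Module.End.mul_apply, map_sub, map_pow, aeval_X, map_one, LinearMap.sub_apply, 
        Module.End.one_apply] at h2
      rw [hpm v hv, sub_self] at h2
      rw [← h2, map_sub]
    rw [cyclotomic_eq_prod_X_sub_primitiveRoots hprim] at h1
    obtain ⟨μ, hμ, z, hzS, hz0, hfz⟩ := exists_eigen f _ hstab _ _ hyS hy h1
    exact hz0 (hnoeig μ ((mem_primitiveRoots (pow_pos hp.out.pos _)).1 hμ) z hzS hfz)
  refine ⟨fun x hx => ?_, hv.2⟩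
  -- x = p^(r-1) z
  set z := x * (p : ℚ_[p]) ^ (-(r - 1)) with hz
  have hz1 : ‖z‖ ≤ 1 := by
    rw [hz, norm_mul, Padic.norm_p_zpow]
    calc ‖x‖ * (p : ℝ) ^ (-(-(r - 1))) ≤ (p : ℝ) ^ (-(r - 1)) * (p : ℝ) ^ (-(-(r - 1))) := by gcongr
      _ = 1 := by rw [← zpow_add₀ hp0.ne']; simp
  obtain ⟨j, hj⟩ := exists_nat_approx z hz1 1
  have hxz : x = (j : ℚ_[p]) * (p : ℚ_[p]) ^ (r - 1) + (z - j) * (p : ℚ_[p]) ^ (r - 1) := by
    rw [hz, ← add_mul, add_sub_cancel, mul_assoc, ← zpow_add₀ hpQ]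
    simp
  have h1 : u ((z - j) * (p : ℚ_[p]) ^ (r - 1)) v = v := by
    apply hv.1
    rw [norm_mul, Padic.norm_p_zpow]
    calc ‖z - j‖ * (p : ℝ) ^ (-(r - 1)) ≤ (p : ℝ) ^ (-((1 : ℕ) : ℤ)) * (p : ℝ) ^ (-(r - 1)) := by gcongr
      _ = (p : ℝ) ^ (-r) := by rw [← zpow_add₀ hp0.ne']; congr 1; push_cast; ring
  have h2 : u ((p : ℚ_[p]) ^ (r - 1)) v = v := by
    have h3 : (p : ℚ_[p]) ^ (r - 1) = ((p ^ k : ℕ) : ℚ_[p]) * (p : ℚ_[p]) ^ (r - (k + 1 : ℕ)) := by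
      push_cast
      rw [← zpow_natCast, ← zpow_add₀ hpQ]
      congr 1; ring
    rw [h3, u_nat u hu0 hu, ← hf]
    exact sub_eq_zero.1 hy0
  rw [hxz, hu, LinearMap.comp_apply, h1, u_nat u hu0 hu]
  have h4 : ∀ n : ℕ, ((u ((p : ℚ_[p]) ^ (r - 1))) ^ n) v = v := by
    intro n
    induction n with
    | zero => simp
    | succ n ih => rw [pow_succ', Module.End.mul_apply, ih, h2]
  exact h4 j

include hu0 hu ht1 ht hut in
theorem unip_trivial 
    (hsm : ∀ v, ∃ k : ℕ, (∀ x, ‖x‖ ≤ (p : ℝ) ^ (-(k : ℤ)) → u x v = v) ∧ 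
      (∀ a, ‖a‖ = 1 → ‖a - 1‖ ≤ (p : ℝ) ^ (-(k : ℤ)) → t a v = v))
    (hno : ∀ v, (∀ a, ‖a‖ = 1 → t a v = v) → v = 0) : ∀ x v, u x v = v := by
  intro x v
  have hp1 : (1 : ℝ) ≤ p := by exact_mod_cast hp.out.one_lt.le
  have hp1' : (1 : ℝ) < p := by exact_mod_cast hp.out.one_lt
  obtain ⟨k, hk1, hk2⟩ := hsm v
  have hle : (p : ℝ) ^ (-((k + 1 : ℕ) : ℤ)) ≤ (p : ℝ) ^ (-(k : ℤ)) := by
    apply zpow_le_zpow_right₀ hp1; push_cast; omega
  have h0 : v ∈ SS u t ((k + 1 : ℕ) : ℤ) (k + 1) := 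
    ⟨fun x hx => hk1 x (hx.trans hle), fun a ha ha' => hk2 a ha (ha'.trans hle)⟩
  have hall : ∀ i : ℕ, v ∈ SS u t (((k + 1 : ℕ) : ℤ) - i) (k + 1) := by
    intro i
    induction i with
    | zero => simpa using h0
    | succ i ih =>
      have := step u t hu0 hu ht1 ht hut hno _ (k + 1) (by omega) v ih
      rw [show (((k + 1 : ℕ) : ℤ) - i) - 1 = ((k + 1 : ℕ) : ℤ) - ((i + 1 : ℕ) : ℤ) by push_cast; ring] at this
      exact this
  obtain ⟨N, hN⟩ := pow_unbounded_of_one_lt ‖x‖ hp1'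
  have := (hall (k + 1 + N)).1 x
  apply this
  rw [show -(((k + 1 : ℕ) : ℤ) - ((k + 1 + N : ℕ) : ℤ)) = (N : ℤ) by push_cast; ring, zpow_natCast]
  exact hN.le

end

end Pool.Agent.H3.GSp
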